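import Mathlib

/-!
A graph on five vertices in which every vertex has exactly two neighbours is the 5-cycle.
-/

set_option autoImplicit false

namespace Pool.Agent.helper4.EE

open Finset

/-- the twelve labelled 5-cycles, as vectors of positions -/
def cands : List (Fin 5 → Fin 5) :=
  [![0, 1, 2, 3, 4], ![0, 1, 2, 4, 3], ![0, 1, 3, 2, 4], ![0, 1, 3, 4, 2], ![0, 1, 4, 2, 3],
   ![0, 1, 4, 3, 2], ![0, 2, 1, 3, 4], ![0, 2, 1, 4, 3], ![0, 3, 1, 2, 4], ![0, 4, 1, 2, 3],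
   ![0, 2, 3, 1, 4], ![0, 2, 4, 1, 3], ![0, 3, 2, 1, 4], ![0, 3, 4, 1, 2], ![0, 4, 2, 1, 3],
   ![0, 4, 3, 1, 2], ![0, 2, 3, 4, 1], ![0, 2, 4, 3, 1], ![0, 3, 2, 4, 1], ![0, 3, 4, 2, 1],
   ![0, 4, 2, 3, 1], ![0, 4, 3, 2, 1], ![0, 3, 1, 4, 2], ![0, 4, 1, 3, 2]]

/-- the symmetric matrix with zero diagonal -/
def mat (b01 b02 b03 b04 b12 b13 b14 b23 b24 b34 : Bool) : Fin 5 → Fin 5 → Bool :=
  ![![false, b01, b02, b03, b04], ![b01, false, b12, b13, b14], ![b02, b12, false, b23, b24],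
    ![b03, b13, b23, false, b34], ![b04, b14, b24, b34, false]]

theorem fin5 : ∀ b01 b02 b03 b04 b12 b13 b14 b23 b24 b34 : Bool,
    b01.toNat + b02.toNat + b03.toNat + b04.toNat = 2 →
    b01.toNat + b12.toNat + b13.toNat + b14.toNat = 2 →
    b02.toNat + b12.toNat + b23.toNat + b24.toNat = 2 →
    b03.toNat + b13.toNat + b23.toNat + b34.toNat = 2 →
    b04.toNat + b14.toNat + b24.toNat + b34.toNat = 2 →
    ∃ σ ∈ cands, ∀ i j, mat b01 b02 b03 b04 b12 b13 b14 b23 b24 b34 i j =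
      decide ((SimpleGraph.cycleGraph 5).Adj (σ i) (σ j)) := by
  decide +kernel

theorem cands_inj : ∀ σ ∈ cands, ∀ i j, σ i = σ j → i = j := by
  decide +kernel

theorem five {V : Type*} [Fintype V] (G : SimpleGraph V) (hc : Fintype.card V = 5)
    (hd : ∀ u, ∃ A : Finset V, A.card = 2 ∧ ∀ v, v ∈ A ↔ G.Adj u v) :
    Nonempty (G ≃g SimpleGraph.cycleGraph 5) := by
  classical
  let e : V ≃ Fin 5 := Fintype.equivFinOfCardEq hc
  let b : Fin 5 → Fin 5 → Bool := fun i j => decide (G.Adj (e.symm i) (e.symm j))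
  have hsymm : ∀ i j, b i j = b j i := by
    intro i j
    simp only [b, G.adj_comm]
  have hirr : ∀ i, b i i = false := by
    intro i
    simp [b]
  have hrow : ∀ i, (b i 0).toNat + (b i 1).toNat + (b i 2).toNat + (b i 3).toNat +
      (b i 4).toNat = 2 := by
    intro i
    obtain ⟨A, hA, hA'⟩ := hd (e.symm i)
    have h1 : A = univ.filter fun v => G.Adj (e.symm i) v := by
      ext v
      simp [hA' v]
    have h2 : A.card = ∑ j : Fin 5, (b i j).toNat := by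
      rw [h1, Finset.card_filter, ← Equiv.sum_comp e.symm]
      refine Finset.sum_congr rfl fun j _ => ?_
      by_cases h : G.Adj (e.symm i) (e.symm j) <;> simp [b, h]
    rw [hA, Fin.sum_univ_five] at h2
    exact h2.symm
  have r0 := hrow 0
  have r1 := hrow 1
  have r2 := hrow 2
  have r3 := hrow 3
  have r4 := hrow 4
  rw [hirr 0] at r0
  rw [hirr 1, hsymm 1 0] at r1
  rw [hirr 2, hsymm 2 0, hsymm 2 1] at r2
  rw [hirr 3, hsymm 3 0, hsymm 3 1, hsymm 3 2] at r3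
  rw [hirr 4, hsymm 4 0, hsymm 4 1, hsymm 4 2, hsymm 4 3] at r4
  simp only [Bool.toNat_false, zero_add, add_zero] at r0 r1 r2 r3 r4
  obtain ⟨σ, hσ, hmat⟩ := fin5 (b 0 1) (b 0 2) (b 0 3) (b 0 4) (b 1 2) (b 1 3) (b 1 4) (b 2 3)
    (b 2 4) (b 3 4) r0 r1 r2 r3 r4
  have hb : ∀ i j, b i j = decide ((SimpleGraph.cycleGraph 5).Adj (σ i) (σ j)) := by
    intro i j
    rw [← hmat i j]
    fin_cases i <;> fin_cases j <;> simp [mat, hirr, hsymm 1 0, hsymm 2 0, hsymm 2 1, hsymm 3 0,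
      hsymm 3 1, hsymm 3 2, hsymm 4 0, hsymm 4 1, hsymm 4 2, hsymm 4 3]
  have hinj : Function.Injective σ := fun i j h => cands_inj σ hσ i j h
  have hbij : Function.Bijective σ := Finite.injective_iff_bijective.1 hinj
  let s : Fin 5 ≃ Fin 5 := Equiv.ofBijective σ hbij
  refine ⟨⟨e.trans s, ?_⟩⟩
  intro u v
  show (SimpleGraph.cycleGraph 5).Adj (σ (e u)) (σ (e v)) ↔ G.Adj u v
  have h1 := hb (e u) (e v)
  simp only [b, Equiv.symm_apply_apply] at h1
  rw [decide_eq_decide] at h1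
  exact h1.symm

end Pool.Agent.helper4.EE
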