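import Mathlib

/-!
MP_ee5996_co : graphs isomorphic to their own i-graph, with independent domination number 2.
The combinatorial core: a triangle-free graph K on V whose edges F u are indexed by V itself, where
u, v are adjacent in K if and only if the edges F u, F v form a maximal matching.
-/

set_option autoImplicit false

namespace Pool.Agent.helper4.EE

open Finset

variable {V : Type*} [Fintype V] [DecidableEq V]

/-- The structure. -/
structure Sys (F : V → Finset V) (K : V → V → Prop) : Prop where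
  card2 : ∀ u, (F u).card = 2
  inj : Function.Injective F
  edge : ∀ a b, K a b ↔ a ≠ b ∧ ∃ u, F u = {a, b}
  adj : ∀ u v, K u v ↔ Disjoint (F u) (F v) ∧ ∀ w, ¬ Disjoint (F w) (F u ∪ F v)
  tri : ∀ a b c, K a b → K b c → K a c → False

/-- the edges at x -/
def X (F : V → Finset V) (x : V) : Finset V := univ.filter fun u => x ∈ F u

theorem mem_X {F : V → Finset V} {x u : V} : u ∈ X F x ↔ x ∈ F u := by simp [X]

theorem sum_X (F : V → Finset V) (A : Finset V) :
    ∑ w ∈ A, (X F w).card = ∑ e, (F e ∩ A).card := by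
  have := Finset.sum_card_bipartiteAbove_eq_sum_card_bipartiteBelow (s := A)
    (t := (univ : Finset V)) (fun w e => w ∈ F e)
  calc ∑ w ∈ A, (X F w).card = ∑ w ∈ A, ((univ : Finset V).bipartiteAbove (fun w e => w ∈ F e) w).card := rfl
    _ = ∑ e, (A.bipartiteBelow (fun w e => w ∈ F e) e).card := this
    _ = ∑ e, (F e ∩ A).card := by
      refine Finset.sum_congr rfl fun e _ => ?_
      congr 1
      ext w
      simp [Finset.bipartiteBelow, and_comm]

namespace Sys

variable {F : V → Finset V} {K : V → V → Prop}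

theorem symm (S : Sys F K) {a b : V} (h : K a b) : K b a := by
  rw [S.edge] at h ⊢
  obtain ⟨h1, u, hu⟩ := h
  exact ⟨h1.symm, u, by rw [hu, Finset.pair_comm]⟩

theorem ne (S : Sys F K) {a b : V} (h : K a b) : a ≠ b := ((S.edge a b).1 h).1

/-- two distinct elements of F u are adjacent and F u is the pair -/
theorem pair (S : Sys F K) {u a b : V} (ha : a ∈ F u) (hb : b ∈ F u) (hab : a ≠ b) :
    F u = {a, b} := by
  symm
  apply Finset.eq_of_subset_of_card_le
  · intro z hz
    simp only [mem_insert, mem_singleton] at hz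
    rcases hz with rfl | rfl <;> assumption
  · rw [S.card2, Finset.card_pair hab]

theorem adj_of_mem (S : Sys F K) {u a b : V} (ha : a ∈ F u) (hb : b ∈ F u) (hab : a ≠ b) :
    K a b := (S.edge a b).2 ⟨hab, u, S.pair ha hb hab⟩

theorem other (S : Sys F K) {u a : V} (ha : a ∈ F u) : ∃ b, b ≠ a ∧ b ∈ F u ∧ F u = {a, b} := by
  have h1 : 1 < (F u).card := by rw [S.card2]; norm_num
  obtain ⟨b, hb, hba⟩ := Finset.exists_mem_ne h1 a
  exact ⟨b, hba, hb, S.pair ha hb hba.symm⟩

open Classical in
/-- the neighbours -/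
noncomputable def Nb (K : V → V → Prop) (x : V) : Finset V := univ.filter fun u => K x u

theorem mem_Nb {x u : V} : u ∈ Nb K x ↔ K x u := by simp [Nb]

theorem card_X (S : Sys F K) (x : V) : (X F x).card = (Nb K x).card := by
  symm
  refine Finset.card_bij (fun b hb => Classical.choose ((S.edge x b).1 (mem_Nb.1 hb)).2) ?_ ?_ ?_
  · intro b hb
    have := Classical.choose_spec ((S.edge x b).1 (mem_Nb.1 hb)).2
    rw [mem_X, this]
    simp
  · intro b hb b' hb' h
    have h1 := Classical.choose_spec ((S.edge x b).1 (mem_Nb.1 hb)).2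
    have h2 := Classical.choose_spec ((S.edge x b').1 (mem_Nb.1 hb')).2
    have h3 : ({x, b} : Finset V) = {x, b'} := by rw [← h1, ← h2, h]
    have h4 : b ∈ ({x, b'} : Finset V) := by rw [← h3]; simp
    simp only [mem_insert, mem_singleton] at h4
    rcases h4 with h4 | h4
    · exact absurd h4.symm (S.ne (mem_Nb.1 hb))
    · exact h4
  · intro u hu
    obtain ⟨b, hb1, hb2, hb3⟩ := S.other (mem_X.1 hu)
    have hb : b ∈ Nb K x := mem_Nb.2 (S.adj_of_mem (mem_X.1 hu) hb2 hb1.symm)
    refine ⟨b, hb, ?_⟩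
    apply S.inj
    rw [Classical.choose_spec ((S.edge x b).1 (mem_Nb.1 hb)).2, hb3]

theorem nb_inter (S : Sys F K) (x u : V) : (Nb K x ∩ F u).card ≤ 1 := by
  rw [Finset.card_le_one]
  intro a ha b hb
  by_contra hab
  rw [mem_inter, mem_Nb] at ha hb
  exact S.tri x a b ha.1 (S.adj_of_mem ha.2 hb.2 hab) hb.1

/-- a vertex of degree at least 3 is in exactly one of the two edges of a maximal matching -/
theorem exactly_one (S : Sys F K) {x u v : V} (hx : 3 ≤ (X F x).card) (h : K u v) :
    (x ∈ F u ∧ x ∉ F v) ∨ (x ∉ F u ∧ x ∈ F v) := by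
  obtain ⟨h1, h2⟩ := (S.adj u v).1 h
  by_cases hu : x ∈ F u
  · exact Or.inl ⟨hu, fun hv => (Finset.disjoint_left.1 h1) hu hv⟩
  · by_cases hv : x ∈ F v
    · exact Or.inr ⟨hu, hv⟩
    · exfalso
      have h3 : Nb K x ⊆ (Nb K x ∩ F u) ∪ (Nb K x ∩ F v) := by
        intro b hb
        obtain ⟨hxb, w, hw⟩ := (S.edge x b).1 (mem_Nb.1 hb)
        have h4 := h2 w
        rw [hw, Finset.not_disjoint_iff] at h4
        obtain ⟨z, hz1, hz2⟩ := h4
        simp only [mem_insert, mem_singleton] at hz1
        rw [mem_union] at hz2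
        rcases hz1 with rfl | rfl
        · rcases hz2 with h5 | h5
          · exact absurd h5 hu
          · exact absurd h5 hv
        · rw [mem_union, mem_inter, mem_inter]
          rcases hz2 with h5 | h5
          · exact Or.inl ⟨hb, h5⟩
          · exact Or.inr ⟨hb, h5⟩
      have h4 := Finset.card_le_card h3
      have h5 := Finset.card_union_le (Nb K x ∩ F u) (Nb K x ∩ F v)
      have h6 := S.nb_inter x u
      have h7 := S.nb_inter x v
      rw [S.card_X] at hx
      omega

/-- every pair F e is an adjacent pair -/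
theorem exists_pair (S : Sys F K) (e : V) : ∃ u v, K u v ∧ F e = {u, v} := by
  obtain ⟨u, v, huv, h⟩ := Finset.card_eq_two.1 (S.card2 e)
  exact ⟨u, v, (S.edge u v).2 ⟨huv, e, h⟩, h⟩

theorem card_inter_one (S : Sys F K) (A : Finset V)
    (hA : ∀ u v, K u v → (u ∈ A ∧ v ∉ A) ∨ (u ∉ A ∧ v ∈ A)) (e : V) : (F e ∩ A).card = 1 := by
  obtain ⟨u, v, huv, he⟩ := S.exists_pair e
  rw [he, Finset.card_eq_one]
  rcases hA u v huv with ⟨h1, h2⟩ | ⟨h1, h2⟩
  · refine ⟨u, ?_⟩
    ext z
    simp only [mem_inter, mem_insert, mem_singleton]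
    constructor
    · rintro ⟨rfl | rfl, hz⟩
      · rfl
      · exact absurd hz h2
    · rintro rfl
      exact ⟨Or.inl rfl, h1⟩
  · refine ⟨v, ?_⟩
    ext z
    simp only [mem_inter, mem_insert, mem_singleton]
    constructor
    · rintro ⟨rfl | rfl, hz⟩
      · exact absurd hz h1
      · rfl
    · rintro rfl
      exact ⟨Or.inr rfl, h2⟩

theorem sum_eq (S : Sys F K) (A : Finset V)
    (hA : ∀ u v, K u v → (u ∈ A ∧ v ∉ A) ∨ (u ∉ A ∧ v ∈ A)) :
    ∑ w ∈ A, (X F w).card = Fintype.card V := by
  rw [sum_X]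
  rw [Finset.sum_congr rfl fun e _ => S.card_inter_one A hA e]
  simp

/-- if some vertex x has degree at least 3 then {x, c} is a vertex cover for some c -/
theorem exists_cover (S : Sys F K) {x : V} (hx : 3 ≤ (X F x).card) :
    ∃ c, c ≠ x ∧ 2 ≤ (X F c).card ∧ ∀ e, x ∈ F e ∨ c ∈ F e := by
  classical
  set D := (X F x).card with hD
  let W : Finset V := (X F x)ᶜ.filter fun w => ∀ e, x ∈ F e ∨ ¬ Disjoint (F e) (F w)
  have hsum : ∑ w ∈ (X F x)ᶜ, (X F w).card = Fintype.card V := by
    apply S.sum_eq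
    intro u v huv
    simp only [mem_compl, mem_X]
    rcases S.exactly_one hx huv with ⟨h1, h2⟩ | ⟨h1, h2⟩
    · exact Or.inr ⟨fun h => h h1, h2⟩
    · exact Or.inl ⟨h1, fun h => h h2⟩
  have hb1 : ∀ w ∈ (X F x)ᶜ, (X F w).card ≤ D := by
    intro w hw
    rw [S.card_X w]
    apply Finset.card_le_card
    intro u hu
    rw [mem_compl, mem_X] at hw
    rcases S.exactly_one hx (mem_Nb.1 hu) with ⟨h1, _⟩ | ⟨_, h2⟩
    · exact absurd h1 hw
    · exact mem_X.2 h2
  have hb2 : ∀ w ∈ (X F x)ᶜ, w ∉ W → (X F w).card ≤ 1 := by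
    intro w hw hwW
    have hw' := hw
    rw [mem_compl, mem_X] at hw'
    have h0 : ¬ ∀ e, x ∈ F e ∨ ¬ Disjoint (F e) (F w) := fun h =>
      hwW (Finset.mem_filter.2 ⟨hw, h⟩)
    push Not at h0
    obtain ⟨e, he1, he2⟩ := h0
    rw [S.card_X w, Finset.card_le_one]
    have key : ∀ u ∈ Nb K w, ∃ p, p ∈ F e ∧ F u = {x, p} ∧ K x p := by
      intro u hu
      have hwu := mem_Nb.1 hu
      have hxu : x ∈ F u := by
        rcases S.exactly_one hx hwu with ⟨h1, _⟩ | ⟨_, h2⟩
        · exact absurd h1 hw'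
        · exact h2
      have h1 := ((S.adj w u).1 hwu).2 e
      rw [Finset.not_disjoint_iff] at h1
      obtain ⟨p, hp1, hp2⟩ := h1
      rw [mem_union] at hp2
      have hp3 : p ∈ F u := by
        rcases hp2 with h | h
        · exact absurd h (Finset.disjoint_left.1 he2 hp1)
        · exact h
      have hpx : x ≠ p := fun h => he1 (h ▸ hp1)
      exact ⟨p, hp1, S.pair hxu hp3 hpx, S.adj_of_mem hxu hp3 hpx⟩
    intro u hu v hv
    obtain ⟨p, hp1, hp2, hp3⟩ := key u hu
    obtain ⟨q, hq1, hq2, hq3⟩ := key v hv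
    by_cases hpq : p = q
    · apply S.inj
      rw [hp2, hq2, hpq]
    · exact absurd (S.adj_of_mem hp1 hq1 hpq) (fun h => S.tri x p q hp3 h hq3)
  have hWs : W ⊆ (X F x)ᶜ := Finset.filter_subset _ _
  have hW2 : 1 < W.card := by
    by_contra hcon
    have h1 : ∑ w ∈ (X F x)ᶜ, (X F w).card = ∑ w ∈ W, (X F w).card +
        ∑ w ∈ (X F x)ᶜ \ W, (X F w).card := by
      rw [add_comm, Finset.sum_sdiff hWs]
    have h2 : ∑ w ∈ W, (X F w).card ≤ W.card * D := by
      rw [← smul_eq_mul]
      exact Finset.sum_le_card_nsmul _ _ _ fun w hw => hb1 w (hWs hw)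
    have h3 : ∑ w ∈ (X F x)ᶜ \ W, (X F w).card ≤ ((X F x)ᶜ \ W).card * 1 := by
      rw [← smul_eq_mul]
      exact Finset.sum_le_card_nsmul _ _ _ fun w hw => hb2 w (mem_sdiff.1 hw).1 (mem_sdiff.1 hw).2
    have h4 : ((X F x)ᶜ \ W).card = (X F x)ᶜ.card - W.card := Finset.card_sdiff_of_subset hWs
    have h5 : (X F x)ᶜ.card = Fintype.card V - D := Finset.card_compl _
    have h6 : W.card ≤ (X F x)ᶜ.card := Finset.card_le_card hWs
    have h7 : D ≤ Fintype.card V := Finset.card_le_univ _
    have h8 : W.card = 0 ∨ W.card = 1 := by omega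
    rcases h8 with h8 | h8
    · rw [h8] at h2 h4
      omega
    · rw [h8] at h2 h4
      omega
  obtain ⟨w1, hw1, w2, hw2, hne⟩ := Finset.one_lt_card.1 hW2
  obtain ⟨hw1a, hw1b⟩ := Finset.mem_filter.1 hw1
  obtain ⟨hw2a, hw2b⟩ := Finset.mem_filter.1 hw2
  rw [mem_compl, mem_X] at hw1a hw2a
  have h1 : ¬ Disjoint (F w2) (F w1) := by
    rcases hw1b w2 with h | h
    · exact absurd h hw2a
    · exact h
  rw [Finset.not_disjoint_iff] at h1
  obtain ⟨c, hc2, hc1⟩ := h1
  obtain ⟨d1, hd1, hd1m, hF1⟩ := S.other hc1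
  obtain ⟨d2, hd2, hd2m, hF2⟩ := S.other hc2
  have hd : d1 ≠ d2 := by
    rintro rfl
    exact hne (S.inj (by rw [hF1, hF2]))
  refine ⟨c, fun h => hw1a (h ▸ hc1), ?_, ?_⟩
  · have : ({w1, w2} : Finset V) ⊆ X F c := by
      intro z hz
      simp only [mem_insert, mem_singleton] at hz
      rcases hz with rfl | rfl
      · exact mem_X.2 hc1
      · exact mem_X.2 hc2
    have h2 := Finset.card_le_card this
    rw [Finset.card_pair hne] at h2
    exact h2
  · intro e
    by_contra hcon
    push Not at hcon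
    obtain ⟨he1, he2⟩ := hcon
    have m1 : d1 ∈ F e := by
      rcases hw1b e with h | h
      · exact absurd h he1
      · rw [hF1, Finset.not_disjoint_iff] at h
        obtain ⟨z, hz1, hz2⟩ := h
        simp only [mem_insert, mem_singleton] at hz2
        rcases hz2 with rfl | rfl
        · exact absurd hz1 he2
        · exact hz1
    have m2 : d2 ∈ F e := by
      rcases hw2b e with h | h
      · exact absurd h he1
      · rw [hF2, Finset.not_disjoint_iff] at h
        obtain ⟨z, hz1, hz2⟩ := h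
        simp only [mem_insert, mem_singleton] at hz2
        rcases hz2 with rfl | rfl
        · exact absurd hz1 he2
        · exact hz1
    exact S.tri c d1 d2 (S.adj_of_mem hc1 hd1m hd1.symm) (S.adj_of_mem m1 m2 hd)
      (S.adj_of_mem hc2 hd2m hd2.symm)


/-- with a cover {x, c} where no edge contains both: the neighbours of an edge at c are edges at x,
and at most one edge at x is missing -/
theorem nb_sub (S : Sys F K) {x c w : V} (hcov : ∀ e, x ∈ F e ∨ c ∈ F e) (hw : c ∈ F w) :
    Nb K w ⊆ X F x := by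
  intro u hu
  have h := ((S.adj w u).1 (mem_Nb.1 hu)).1
  rcases hcov u with h1 | h1
  · exact mem_X.2 h1
  · exact absurd h1 (Finset.disjoint_left.1 h hw)

theorem nb_large (S : Sys F K) {x c w : V} (hcov : ∀ e, x ∈ F e ∨ c ∈ F e)
    (hdis : ∀ e, ¬ (x ∈ F e ∧ c ∈ F e)) (hw : c ∈ F w) :
    (X F x).card ≤ (Nb K w).card + 1 := by
  have h1 : (X F x \ Nb K w).card ≤ 1 := by
    rw [Finset.card_le_one]
    obtain ⟨q, hq, hqm, hF⟩ := S.other hw
    have key : ∀ u ∈ X F x \ Nb K w, F u = {x, q} := by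
      intro u hu
      rw [mem_sdiff, mem_X, mem_Nb] at hu
      obtain ⟨hu1, hu2⟩ := hu
      have h2 : ¬ Disjoint (F w) (F u) := by
        intro hd
        apply hu2
        rw [S.adj]
        refine ⟨hd, fun e => ?_⟩
        rw [Finset.not_disjoint_iff]
        rcases hcov e with h | h
        · exact ⟨x, h, mem_union_right _ hu1⟩
        · exact ⟨c, h, mem_union_left _ hw⟩
      rw [hF, Finset.not_disjoint_iff] at h2
      obtain ⟨z, hz1, hz2⟩ := h2
      simp only [mem_insert, mem_singleton] at hz1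
      rcases hz1 with rfl | rfl
      · exact absurd ⟨hu1, hz2⟩ (hdis u)
      · refine S.pair hu1 hz2 ?_
        rintro rfl
        exact hdis w ⟨hqm, hw⟩
    intro u hu v hv
    apply S.inj
    rw [key u hu, key v hv]
  have h2 := Finset.card_le_card_sdiff_add_card (s := X F x) (t := Nb K w)
  omega

/-- no vertex has degree at least 3 -/
theorem deg_le (S : Sys F K) (x : V) : (X F x).card ≤ 2 := by
  classical
  by_contra hx0
  have hx : 3 ≤ (X F x).card := by omega
  obtain ⟨c, hcx, hc2, hcov⟩ := S.exists_cover hx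
  -- x and c are not adjacent
  have hun : X F x ∪ X F c = univ := by
    ext e
    simp only [mem_union, mem_X, mem_univ, iff_true]
    exact hcov e
  have hcard : (X F x ∪ X F c).card + (X F x ∩ X F c).card = (X F x).card + (X F c).card :=
    Finset.card_union_add_card_inter _ _
  rw [hun, Finset.card_univ] at hcard
  have hxc : ¬ K x c := by
    intro hK
    obtain ⟨_, e, he⟩ := (S.edge x c).1 hK
    have h1 : 1 ≤ (X F x ∩ X F c).card := by
      rw [Nat.one_le_iff_ne_zero, ← Nat.pos_iff_ne_zero, Finset.card_pos]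
      exact ⟨e, by rw [mem_inter, mem_X, mem_X, he]; simp⟩
    have h2 : Disjoint (Nb K x) (Nb K c) := by
      rw [Finset.disjoint_left]
      intro z hz1 hz2
      exact S.tri x c z hK (mem_Nb.1 hz2) (mem_Nb.1 hz1)
    have h3 : (Nb K x ∪ Nb K c).card ≤ Fintype.card V := Finset.card_le_univ _
    rw [Finset.card_union_of_disjoint h2, ← S.card_X, ← S.card_X] at h3
    omega
  have hdis : ∀ e, ¬ (x ∈ F e ∧ c ∈ F e) := fun e he => hxc (S.adj_of_mem he.1 he.2 hcx.symm)
  have hinter : X F x ∩ X F c = ∅ := by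
    ext e
    simp only [mem_inter, mem_X, notMem_empty, iff_false]
    exact hdis e
  rw [hinter, Finset.card_empty, add_zero] at hcard
  -- degrees
  have hcov' : ∀ e, c ∈ F e ∨ x ∈ F e := fun e => (hcov e).symm
  have hdis' : ∀ e, ¬ (c ∈ F e ∧ x ∈ F e) := fun e h => hdis e ⟨h.2, h.1⟩
  have hc_lo : ∀ w ∈ X F c, (X F x).card ≤ (X F w).card + 1 := fun w hw => by
    rw [S.card_X w]
    exact S.nb_large hcov hdis (mem_X.1 hw)
  have hc_hi : ∀ w ∈ X F c, (X F w).card ≤ (X F x).card := fun w hw => by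
    rw [S.card_X w]
    exact Finset.card_le_card (S.nb_sub hcov (mem_X.1 hw))
  have hx_lo : ∀ w ∈ X F x, (X F c).card ≤ (X F w).card + 1 := fun w hw => by
    rw [S.card_X w]
    exact S.nb_large hcov' hdis' (mem_X.1 hw)
  have hx_hi : ∀ w ∈ X F x, (X F w).card ≤ (X F c).card := fun w hw => by
    rw [S.card_X w]
    exact Finset.card_le_card (S.nb_sub hcov' (mem_X.1 hw))
  have hA : ∀ u v, K u v → (u ∈ X F c ∧ v ∉ X F c) ∨ (u ∉ X F c ∧ v ∈ X F c) := by
    intro u v huv
    simp only [mem_X]
    have h := ((S.adj u v).1 huv).1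
    by_cases hu : c ∈ F u
    · exact Or.inl ⟨hu, fun hv => Finset.disjoint_left.1 h hu hv⟩
    · have hxu : x ∈ F u := (hcov u).resolve_right hu
      exact Or.inr ⟨hu, (hcov v).resolve_left fun hv => Finset.disjoint_left.1 h hxu hv⟩
  have hB : ∀ u v, K u v → (u ∈ X F x ∧ v ∉ X F x) ∨ (u ∉ X F x ∧ v ∈ X F x) := by
    intro u v huv
    simp only [mem_X]
    have h := ((S.adj u v).1 huv).1
    by_cases hu : x ∈ F u
    · exact Or.inl ⟨hu, fun hv => Finset.disjoint_left.1 h hu hv⟩
    · have hcu : c ∈ F u := (hcov u).resolve_left hu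
      exact Or.inr ⟨hu, (hcov v).resolve_right fun hv => Finset.disjoint_left.1 h hcu hv⟩
  have hsumc := S.sum_eq _ hA
  have hsumx := S.sum_eq _ hB
  obtain ⟨D, hD⟩ : ∃ D, D = (X F x).card := ⟨_, rfl⟩
  obtain ⟨M, hM⟩ : ∃ M, M = (X F c).card := ⟨_, rfl⟩
  -- lower bounds for the sums
  have l1 : M * (D - 1) ≤ D + M := by
    rw [hD, hM, ← hcard, ← hsumc, ← smul_eq_mul]
    refine Finset.card_nsmul_le_sum _ _ _ fun w hw => ?_
    have := hc_lo w hw
    omega
  have hD3 : 3 ≤ D := by omega
  have hM2 : 2 ≤ M := by omega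
  have hcases : (M = 2 ∧ D = 3) ∨ (M = 2 ∧ D = 4) ∨ (M = 3 ∧ D = 3) := by
    obtain ⟨d, rfl⟩ : ∃ d, D = d + 3 := ⟨D - 3, by omega⟩
    obtain ⟨m, rfl⟩ : ∃ m, M = m + 2 := ⟨M - 2, by omega⟩
    have l2 : (m + 2) * (d + 2) ≤ d + 3 + (m + 2) := l1
    have l3 : m * d + m + d ≤ 1 := by nlinarith
    have l4 : m ≤ 1 := by
      have : 0 ≤ m * d := Nat.zero_le _
      omega
    have l5 : d ≤ 1 := by
      have : 0 ≤ m * d := Nat.zero_le _
      omega
    have l6 : m + d ≤ 1 := by
      have : 0 ≤ m * d := Nat.zero_le _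
      omega
    omega
  have hxx : x ∈ X F x ∪ X F c := by rw [hun]; exact mem_univ _
  rcases hcases with ⟨h1, h2⟩ | ⟨h1, h2⟩ | ⟨h1, h2⟩
  · -- M = 2, D = 3, N = 5
    have hN : Fintype.card V = 5 := by omega
    have hV : ∀ z, z ≠ x → z ≠ c → z ∈ Nb K x := by
      intro z hzx hzc
      by_contra hz
      have h3 : insert z (insert c (insert x (Nb K x))) ⊆ univ := subset_univ _
      have h4 := Finset.card_le_card h3
      rw [Finset.card_univ, hN, Finset.card_insert_of_notMem, Finset.card_insert_of_notMem,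
        Finset.card_insert_of_notMem, ← S.card_X, ← hD, h2] at h4
      · omega
      · rw [mem_Nb]
        exact fun h => S.ne h rfl
      · rw [mem_insert, mem_Nb]
        rintro (h | h)
        · exact hcx h
        · exact hxc h
      · rw [mem_insert, mem_insert]
        rintro (h | h | h)
        · exact hzc h
        · exact hzx h
        · exact hz h
    have h3 : ∀ w ∈ X F c, (X F w).card ≤ 2 := by
      intro w hw
      obtain ⟨q, hq, hqm, hF⟩ := S.other (mem_X.1 hw)
      have hqx : q ≠ x := by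
        rintro rfl
        exact hdis w ⟨hqm, mem_X.1 hw⟩
      have hKq := mem_Nb.1 (hV q hqx hq)
      obtain ⟨_, u, hu⟩ := (S.edge x q).1 hKq
      have h4 : insert u (Nb K w) ⊆ X F x := by
        intro z hz
        rw [mem_insert] at hz
        rcases hz with rfl | hz
        · rw [mem_X, hu]
          simp
        · exact S.nb_sub hcov (mem_X.1 hw) hz
      have h5 := Finset.card_le_card h4
      rw [Finset.card_insert_of_notMem, ← S.card_X, ← hD, h2] at h5
      · omega
      · intro h
        have h6 := ((S.adj w u).1 (mem_Nb.1 h)).1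
        rw [hu] at h6
        exact Finset.disjoint_left.1 h6 hqm (by simp)
    have h4 : ∑ w ∈ X F c, (X F w).card ≤ (X F c).card * 2 := by
      rw [← smul_eq_mul]
      exact Finset.sum_le_card_nsmul _ _ _ h3
    omega
  · -- M = 2, D = 4
    have hxc' : x ∈ X F c := by
      rcases mem_union.1 hxx with h | h
      · have := hx_hi x h
        omega
      · exact h
    have h3 : ∑ w ∈ X F c, (X F w).card = (X F x).card +
        ∑ w ∈ (X F c).erase x, (X F w).card :=
      (Finset.add_sum_erase _ (fun w => (X F w).card) hxc').symm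
    have h4 : ((X F c).erase x).card * 3 ≤ ∑ w ∈ (X F c).erase x, (X F w).card := by
      rw [← smul_eq_mul]
      refine Finset.card_nsmul_le_sum _ _ _ fun w hw => ?_
      have := hc_lo w (Finset.mem_of_mem_erase hw)
      omega
    rw [Finset.card_erase_of_mem hxc'] at h4
    omega
  · -- M = 3, D = 3
    rcases mem_union.1 hxx with hm | hm
    · have h3 : ∑ w ∈ X F x, (X F w).card = (X F x).card +
          ∑ w ∈ (X F x).erase x, (X F w).card :=
        (Finset.add_sum_erase _ (fun w => (X F w).card) hm).symm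
      have h4 : ((X F x).erase x).card * 2 ≤ ∑ w ∈ (X F x).erase x, (X F w).card := by
        rw [← smul_eq_mul]
        refine Finset.card_nsmul_le_sum _ _ _ fun w hw => ?_
        have := hx_lo w (Finset.mem_of_mem_erase hw)
        omega
      rw [Finset.card_erase_of_mem hm] at h4
      omega
    · have h3 : ∑ w ∈ X F c, (X F w).card = (X F x).card +
          ∑ w ∈ (X F c).erase x, (X F w).card :=
        (Finset.add_sum_erase _ (fun w => (X F w).card) hm).symm
      have h4 : ((X F c).erase x).card * 2 ≤ ∑ w ∈ (X F c).erase x, (X F w).card := by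
        rw [← smul_eq_mul]
        refine Finset.card_nsmul_le_sum _ _ _ fun w hw => ?_
        have := hc_lo w (Finset.mem_of_mem_erase hw)
        omega
      rw [Finset.card_erase_of_mem hm] at h4
      omega

/-- all degrees are 2 -/
theorem deg_eq (S : Sys F K) (x : V) : (X F x).card = 2 := by
  have h1 : ∑ w, (X F w).card = ∑ _w : V, 2 := by
    have := sum_X F univ
    rw [this]
    exact Finset.sum_congr rfl fun e _ => by rw [inter_univ, S.card2]
  have h2 := (Finset.sum_eq_sum_iff_of_le (s := (univ : Finset V))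
    (f := fun w => (X F w).card) (g := fun _ => 2) fun w _ => S.deg_le w).1 h1
  exact h2 x (mem_univ x)

/-- the edges meeting F u -/
def I (F : V → Finset V) (u : V) : Finset V := univ.filter fun w => ¬ Disjoint (F w) (F u)

theorem mem_I {u w : V} : w ∈ I F u ↔ ¬ Disjoint (F w) (F u) := by simp [I]

theorem card_I (S : Sys F K) (u : V) : (I F u).card = 3 := by
  obtain ⟨a, b, hab, hF⟩ := Finset.card_eq_two.1 (S.card2 u)
  have h1 : I F u = X F a ∪ X F b := by
    ext w
    rw [mem_I, mem_union, mem_X, mem_X, hF, Finset.not_disjoint_iff]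
    constructor
    · rintro ⟨z, hz1, hz2⟩
      simp only [mem_insert, mem_singleton] at hz2
      rcases hz2 with rfl | rfl
      · exact Or.inl hz1
      · exact Or.inr hz1
    · rintro (h | h)
      · exact ⟨a, h, by simp⟩
      · exact ⟨b, h, by simp⟩
  have h2 : X F a ∩ X F b = {u} := by
    ext w
    rw [mem_inter, mem_X, mem_X, mem_singleton]
    constructor
    · rintro ⟨h3, h4⟩
      apply S.inj
      rw [S.pair h3 h4 hab, hF]
    · rintro rfl
      rw [hF]
      simp
  have h3 := Finset.card_union_add_card_inter (X F a) (X F b)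
  rw [h2, Finset.card_singleton, S.deg_eq, S.deg_eq, ← h1] at h3
  omega

theorem card_five (S : Sys F K) (u : V) : Fintype.card V = 5 := by
  classical
  have hnb : ∀ v, (Nb K v).card = 2 := fun v => by rw [← S.card_X, S.deg_eq]
  have hsub : ∀ v, Nb K v ⊆ (I F v)ᶜ := by
    intro v w hw
    rw [mem_compl, mem_I, not_not]
    exact ((S.adj v w).1 (mem_Nb.1 hw)).1.symm
  have h5 : 5 ≤ Fintype.card V := by
    have h1 := Finset.card_le_card (hsub u)
    rw [hnb, Finset.card_compl, S.card_I] at h1
    omega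
  obtain ⟨v1, v2, hne, hv⟩ := Finset.card_eq_two.1 (hnb u)
  have hk1 : K u v1 := mem_Nb.1 (by rw [hv]; simp)
  have hk2 : K u v2 := mem_Nb.1 (by rw [hv]; simp)
  have hcov : ∀ v, K u v → I F u ∪ I F v = univ := by
    intro v hk
    ext e
    have h1 := ((S.adj u v).1 hk).2 e
    rw [Finset.disjoint_union_right, not_and_or] at h1
    rw [mem_union, mem_I, mem_I]
    simp only [mem_univ, iff_true]
    exact h1
  have h6 : Fintype.card V ≤ 6 := by
    have h1 := Finset.card_union_le (I F u) (I F v1)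
    rw [hcov v1 hk1, Finset.card_univ, S.card_I, S.card_I] at h1
    exact h1
  by_contra hcon
  have hN : Fintype.card V = 6 := by omega
  have hcompl : ∀ v, K u v → I F v = (I F u)ᶜ := by
    intro v hk
    symm
    apply Finset.eq_of_subset_of_card_le
    · intro e he
      have h1 : e ∈ I F u ∪ I F v := by rw [hcov v hk]; exact mem_univ _
      rcases mem_union.1 h1 with h | h
      · exact absurd h (mem_compl.1 he)
      · exact h
    · rw [Finset.card_compl, S.card_I, S.card_I, hN]
  have hI : I F v1 = I F v2 := by rw [hcompl v1 hk1, hcompl v2 hk2]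
  have hself : ∀ v, v ∈ I F v := by
    intro v
    rw [mem_I, Finset.not_disjoint_iff]
    obtain ⟨a, b, _, hF⟩ := Finset.card_eq_two.1 (S.card2 v)
    exact ⟨a, by rw [hF]; simp, by rw [hF]; simp⟩
  have h12 : v1 ∈ I F v2 := by rw [← hI]; exact hself v1
  rw [mem_I, Finset.not_disjoint_iff] at h12
  obtain ⟨s, hs1, hs2⟩ := h12
  obtain ⟨t1, ht1, ht1m, hF1⟩ := S.other hs1
  obtain ⟨t2, ht2, ht2m, hF2⟩ := S.other hs2
  have htt : t1 ≠ t2 := by
    rintro rfl
    exact hne (S.inj (by rw [hF1, hF2]))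
  -- the other edge at t1
  have hX1 : 1 < (X F t1).card := by rw [S.deg_eq]; norm_num
  obtain ⟨w, hw, hwv⟩ := Finset.exists_mem_ne hX1 v1
  rw [mem_X] at hw
  have hsX : X F s = {v1, v2} := by
    symm
    apply Finset.eq_of_subset_of_card_le
    · intro z hz
      simp only [mem_insert, mem_singleton] at hz
      rcases hz with rfl | rfl
      · exact mem_X.2 hs1
      · exact mem_X.2 hs2
    · rw [S.deg_eq, Finset.card_pair hne]
  have hsw : s ∉ F w := by
    intro h
    have h1 : w ∈ X F s := mem_X.2 h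
    rw [hsX] at h1
    simp only [mem_insert, mem_singleton] at h1
    rcases h1 with h1 | h1
    · exact hwv h1
    · rw [h1, hF2] at hw
      simp only [mem_insert, mem_singleton] at hw
      rcases hw with hw | hw
      · exact ht1 hw
      · exact htt hw
  have hw1 : w ∈ I F v1 := by
    rw [mem_I, Finset.not_disjoint_iff]
    exact ⟨t1, hw, ht1m⟩
  rw [hI, mem_I, Finset.not_disjoint_iff] at hw1
  obtain ⟨z, hz1, hz2⟩ := hw1
  rw [hF2] at hz2
  simp only [mem_insert, mem_singleton] at hz2
  rcases hz2 with rfl | rfl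
  · exact hsw hz1
  · exact S.tri s t1 z (S.adj_of_mem hs1 ht1m ht1.symm) (S.adj_of_mem hw hz1 htt)
      (S.adj_of_mem hs2 ht2m ht2.symm)

end Sys

end Pool.Agent.helper4.EE
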